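import Pool.Agent.Helper92.RK.Alg

set_option autoImplicit false

/-!
# From lists of lists of literals to sets of terms
-/

namespace Pool.Agent.Helper60.RK.CNV

open Finset
open Pool.Agent.Helper92.RK

theorem mem_tl {n : ℕ} {T : List (ℕ × Bool)} {l : Fin n × Bool} :
    l ∈ (tl T : Tm n) ↔ ((l.1 : ℕ), l.2) ∈ T := by simp [tl]

theorem get_iff {n : ℕ} (x : Fin n → Bool) (i : ℕ) (b : Bool) :
    (List.ofFn x)[i]? = some b ↔ ∃ h : i < n, x ⟨i, h⟩ = b := by
  rw [List.getElem?_ofFn]
  by_cases h : i < n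
  · simp [h]
  · simp [h]

theorem main : S_CNV := by
  classical
  intro k n F hF
  let F0 : List (List (ℕ × Bool)) :=
    F.filter fun T => decide ((∀ l ∈ T, l.1 < n) ∧ Con (tl T : Tm n))
  have hmem : ∀ T, T ∈ F0 ↔ T ∈ F ∧ (∀ l ∈ T, l.1 < n) ∧ Con (tl T : Tm n) := by
    intro T
    rw [List.mem_filter, decide_eq_true_iff]
  refine ⟨(F0.map fun T => (tl T : Tm n)).toFinset, ?_, ?_, ?_⟩
  · intro i
    have h1 : ((F0.map fun T => (tl T : Tm n)).toFinset.filter fun T => i ∈ vr T) ⊆
        ((F.filter fun T => T.any fun l => decide (l.1 = (i : ℕ))).map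
          (fun T => (tl T : Tm n))).toFinset := by
      intro T hT
      rw [Finset.mem_filter, List.mem_toFinset, List.mem_map] at hT
      rw [List.mem_toFinset, List.mem_map]
      obtain ⟨⟨a, ha, rfl⟩, hi⟩ := hT
      refine ⟨a, ?_, rfl⟩
      rw [List.mem_filter]
      refine ⟨((hmem a).1 ha).1, ?_⟩
      rw [List.any_eq_true]
      unfold vr at hi
      obtain ⟨l, hl, hl'⟩ := Finset.mem_image.1 hi
      exact ⟨((l.1 : ℕ), l.2), mem_tl.1 hl, by simp [hl']⟩
    calc ((F0.map fun T => (tl T : Tm n)).toFinset.filter fun T => i ∈ vr T).card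
        ≤ _ := Finset.card_le_card h1
      _ ≤ ((F.filter fun T => T.any fun l => decide (l.1 = (i : ℕ))).map
          (fun T => (tl T : Tm n))).length := List.toFinset_card_le _
      _ = (F.filter fun T => T.any fun l => decide (l.1 = (i : ℕ))).length := List.length_map _
      _ ≤ k := hF i
  · intro b hb
    rw [List.mem_toFinset, List.mem_map] at hb
    obtain ⟨a, ha, rfl⟩ := hb
    exact ((hmem a).1 ha).2.2
  · intro x
    rw [Bool.eq_iff_iff]
    unfold valL vb
    rw [List.any_eq_true, decide_eq_true_iff]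
    unfold Pool.Agent.Helper92.RK.val
    constructor
    · rintro ⟨T, hT, h⟩
      rw [List.all_eq_true] at h
      have h' : ∀ l ∈ T, ∃ hl : l.1 < n, x ⟨l.1, hl⟩ = l.2 := fun l hl =>
        (get_iff x l.1 l.2).1 (of_decide_eq_true (h l hl))
      have hs : Sat (tl T : Tm n) x := by
        intro l hl
        obtain ⟨_, h2⟩ := h' _ (mem_tl.1 hl)
        exact h2
      refine ⟨tl T, ?_, hs⟩
      rw [List.mem_toFinset, List.mem_map]
      refine ⟨T, (hmem T).2 ⟨hT, fun l hl => (h' l hl).1, ?_⟩, rfl⟩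
      intro l hl l' hl' he
      have e1 := hs l hl
      have e2 := hs l' hl'
      refine Prod.ext he ?_
      rw [← e1, ← e2, he]
    · rintro ⟨T', hT', hs⟩
      rw [List.mem_toFinset, List.mem_map] at hT'
      obtain ⟨T, hT, rfl⟩ := hT'
      obtain ⟨h1, h2, h3⟩ := (hmem T).1 hT
      refine ⟨T, h1, ?_⟩
      rw [List.all_eq_true]
      intro l hl
      refine decide_eq_true ((get_iff x l.1 l.2).2 ⟨h2 l hl, ?_⟩)
      exact hs (⟨l.1, h2 l hl⟩, l.2) (mem_tl.2 hl)

end Pool.Agent.Helper60.RK.CNV
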