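import Pool.Agent.Helper92.RK.Alg

set_option autoImplicit false

/-!
# The number of the negative examples is concentrated
-/

namespace Pool.Agent.Helper60.RK.NEG

open Finset
open Pool.Agent.Helper92
open Pool.Agent.Helper92.RK
open Pool.Agent.Helper92.AM (sample)

/-- Number of elements of a list of values with a property, as a sum. -/
theorem filter_ofFn {α : Type} {m : ℕ} (g : Fin m → α) (p : α → Bool) :
    ((List.ofFn g).filter p).length = ∑ j, if p (g j) then 1 else 0 := by
  induction m with
  | zero => simp
  | succ m ih =>
    rw [List.ofFn_succ, List.filter_cons, Fin.sum_univ_succ]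
    by_cases h : p (g 0) = true
    · rw [if_pos h, if_pos h, List.length_cons, ih, add_comm]
    · rw [if_neg h, if_neg h, ih, zero_add]

theorem negs_length {n m : ℕ} (f : (Fin n → Bool) → Bool) (x : Fin m → Fin n → Bool) :
    ((negs (sample f x)).length : ℝ) = ∑ j, (if f (x j) = false then (1 : ℝ) else 0) := by
  unfold negs sample
  rw [List.length_map, filter_ofFn]
  push_cast
  refine Finset.sum_congr rfl fun j _ => ?_
  cases f (x j) <;> simp

theorem main : S_NEG := by
  classical
  intro n m f η hm h0 h1
  have hm' : (0 : ℝ) < m := by exact_mod_cast hm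
  have hX : (0 : ℝ) < Fintype.card (Fin n → Bool) := by exact_mod_cast Fintype.card_pos
  have key := AM.two_tails (X := Fin n → Bool) (fun y => if f y = false then (1 : ℝ) else 0)
    (fun y => by split_ifs <;> simp) (AM.prob (fun y : Fin n → Bool => f y = false))
    (by
      rw [AM.prob_eq, div_mul_cancel₀ _ hX.ne', Finset.sum_boole]) η h0 h1 m
  rw [AM.prob_eq (fun x : Fin m → Fin n → Bool =>
    η < |((negs (sample f x)).length : ℝ) / m - AM.prob (fun y : Fin n → Bool => f y = false)|)]
  have hc : (Fintype.card (Fin m → Fin n → Bool) : ℝ) = (Fintype.card (Fin n → Bool) : ℝ) ^ m := by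
    rw [Fintype.card_fun]
    push_cast
    rw [Fintype.card_fin]
  rw [hc, div_le_iff₀ (pow_pos hX m)]
  have he : (univ.filter fun x : Fin m → Fin n → Bool =>
      η < |((negs (sample f x)).length : ℝ) / m -
        AM.prob (fun y : Fin n → Bool => f y = false)|) =
      univ.filter fun x : Fin m → Fin n → Bool => m * η < |∑ j, (if f (x j) = false then (1 : ℝ)
        else 0) - m * AM.prob (fun y : Fin n → Bool => f y = false)| := by
    refine Finset.filter_congr fun x _ => ?_
    rw [negs_length]
    set S := ∑ j, (if f (x j) = false then (1 : ℝ) else 0)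
    set p := AM.prob (fun y : Fin n → Bool => f y = false)
    have : S - m * p = m * (S / m - p) := by
      field_simp
    rw [this, abs_mul, abs_of_pos hm']
    exact (mul_lt_mul_iff_right₀ hm').symm
  rw [he]
  calc _ ≤ _ := key
    _ = _ := by ring

end Pool.Agent.Helper60.RK.NEG
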